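import Pool.Agent.helper67.RG.Spec

set_option autoImplicit false

namespace Pool.Agent.RG.SQT

open Matrix Pool.Agent.RG Pool.Agent.GO Pool.Agent.AR

private theorem SQT_trans {F Γ a b c : Type*} [Field F] [Fintype a] [Fintype b] [Fintype c]
    (ρ : Γ → Matrix a a F) (W : Γ → Matrix b b F) (V : Γ → Matrix c c F)
    (h1 : IsSubquotient ρ W) (h2 : IsSubquotient W V) : IsSubquotient ρ V := by
  obtain ⟨Q₁, hQ₁, π₁, s₁, e₁⟩ := h1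
  obtain ⟨Q₂, hQ₂, π₂, s₂, e₂⟩ := h2
  have hle : (Q₁.comap π₂).map Q₂.subtype ≤ Q₂ := Submodule.map_subtype_le _ _
  have hm : ∀ x : ((Q₁.comap π₂).map Q₂.subtype : Submodule F (c → F)),
      (π₂ ∘ₗ Submodule.inclusion hle) x ∈ Q₁ := by
    rintro ⟨x, hx⟩
    obtain ⟨y, hy, rfl⟩ := Submodule.mem_map.1 hx
    exact hy
  have hst : ∀ g, ∀ x ∈ (Q₁.comap π₂).map Q₂.subtype,
      V g *ᵥ x ∈ (Q₁.comap π₂).map Q₂.subtype := by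
    intro g x hx
    obtain ⟨y, hy, rfl⟩ := Submodule.mem_map.1 hx
    refine Submodule.mem_map.2 ⟨⟨V g *ᵥ y.1, hQ₂ g y.1 y.2⟩, ?_, rfl⟩
    rw [Submodule.mem_comap, e₂ g y]
    exact hQ₁ g _ hy
  refine ⟨(Q₁.comap π₂).map Q₂.subtype, hst,
    π₁ ∘ₗ (π₂ ∘ₗ Submodule.inclusion hle).codRestrict Q₁ hm, ?_, ?_⟩
  · intro u
    obtain ⟨y, hy⟩ := s₁ u
    obtain ⟨x, hx⟩ := s₂ y.1
    have hx' : x.1 ∈ (Q₁.comap π₂).map Q₂.subtype := by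
      refine Submodule.mem_map.2 ⟨x, ?_, rfl⟩
      rw [Submodule.mem_comap, hx]
      exact y.2
    refine ⟨⟨x.1, hx'⟩, ?_⟩
    show π₁ ((π₂ ∘ₗ Submodule.inclusion hle).codRestrict Q₁ hm ⟨x.1, hx'⟩) = u
    have e : (π₂ ∘ₗ Submodule.inclusion hle).codRestrict Q₁ hm ⟨x.1, hx'⟩ = y := by
      apply Subtype.ext
      show π₂ ⟨x.1, _⟩ = y.1
      exact hx
    rw [e, hy]
  · intro g x
    show π₁ ((π₂ ∘ₗ Submodule.inclusion hle).codRestrict Q₁ hm ⟨V g *ᵥ x.1, hst g x.1 x.2⟩) =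
      ρ g *ᵥ π₁ ((π₂ ∘ₗ Submodule.inclusion hle).codRestrict Q₁ hm x)
    rw [← e₁ g]
    congr 1
    apply Subtype.ext
    show π₂ ⟨V g *ᵥ x.1, _⟩ = W g *ᵥ π₂ ⟨x.1, _⟩
    exact e₂ g ⟨x.1, hle x.2⟩

theorem SQT : SQT_stmt := by
  constructor
  · intro F Γ a b c _ _ _ _ ρ W V h1 h2
    exact SQT_trans ρ W V h1 h2
  · intro F Γ m _ _ _ _ V A B d W π hB hF
    exact ⟨B, hB, π, hF.surj, fun g x => hF.equiv g x ⟨V g *ᵥ x.1, hB g x.1 x.2⟩ rfl⟩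

end Pool.Agent.RG.SQT
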